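import Pool.Agent.H.MP_1e4d5b_gt.Defs

namespace Pool.Agent.H.MP_1e4d5b_gt

open Filter Topology

universe u v

section Group

variable {X : Type u} [TopologicalSpace X]

instance isTopologicalAddGroup : IsTopologicalAddGroup (FreeAbelianGroup X) :=
  topologicalAddGroup_sInf (fun _ ht => ht.1)

theorem continuous_of : Continuous (FreeAbelianGroup.of : X → FreeAbelianGroup X) :=
  continuous_sInf_rng.2 (fun _ ht => ht.2)

/-- The universal property of the Markov free abelian topological group. -/
theorem continuous_lift {H : Type v} [AddCommGroup H] [TopologicalSpace H]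
    [IsTopologicalAddGroup H] {h : X → H} (hh : Continuous h) :
    Continuous (FreeAbelianGroup.lift h : FreeAbelianGroup X → H) := by
  rw [continuous_iff_le_induced]
  refine sInf_le ⟨topologicalAddGroup_induced _, ?_⟩
  rw [continuous_induced_rng]
  convert hh using 1
  funext x
  simp

end Group

section Length

variable {X : Type u}

theorem length_zero : length (0 : FreeAbelianGroup X) = 0 := by
  simp [length]

theorem length_eq_sum_of_subset (g : FreeAbelianGroup X) (s : Finset X) (hs : g.support ⊆ s) :
    length g = ∑ x ∈ s, (FreeAbelianGroup.coeff x g).natAbs := by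
  refine Finset.sum_subset hs (fun x _ hx => ?_)
  rw [FreeAbelianGroup.notMem_support_iff] at hx
  simp [hx]

theorem length_neg (g : FreeAbelianGroup X) : length (-g) = length g := by
  simp [length]

theorem length_add_le (g h : FreeAbelianGroup X) : length (g + h) ≤ length g + length h := by
  classical
  rw [length_eq_sum_of_subset (g + h) (g.support ∪ h.support) (FreeAbelianGroup.support_add g h),
    length_eq_sum_of_subset g (g.support ∪ h.support) Finset.subset_union_left,
    length_eq_sum_of_subset h (g.support ∪ h.support) Finset.subset_union_right,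
    ← Finset.sum_add_distrib]
  refine Finset.sum_le_sum (fun x _ => ?_)
  rw [map_add]
  exact Int.natAbs_add_le _ _

theorem length_sub_le (g h : FreeAbelianGroup X) : length (g - h) ≤ length g + length h := by
  rw [sub_eq_add_neg]
  exact (length_add_le _ _).trans (by rw [length_neg])

theorem length_of (x : X) : length (FreeAbelianGroup.of x) = 1 := by
  simp [length, FreeAbelianGroup.coeff]

theorem length_of_sub_of_le (x y : X) :
    length (FreeAbelianGroup.of x - FreeAbelianGroup.of y) ≤ 2 :=
  (length_sub_le _ _).trans (by rw [length_of, length_of])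

theorem coeff_of [DecidableEq X] (x y : X) :
    FreeAbelianGroup.coeff x (FreeAbelianGroup.of y) = if y = x then 1 else 0 := by
  simp [FreeAbelianGroup.coeff, Finsupp.single_apply]

/-- Every nonzero element of length at most `N` is a signed sum of exactly `N` generators of its
support, signs `0` allowed. -/
theorem exists_rep (N : ℕ) : ∀ z : FreeAbelianGroup X, z ≠ 0 → length z ≤ N →
    ∃ (ε : Fin N → SignType) (x : Fin N → X), (∀ i, x i ∈ z.support) ∧
      z = ∑ i, (ε i : ℤ) • FreeAbelianGroup.of (x i) := by
  classical
  induction N with
  | zero =>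
    intro z hz hl
    exfalso
    obtain ⟨x, hx⟩ := FreeAbelianGroup.nonempty_support_iff.2 hz
    have h0 : length z = 0 := by omega
    rw [length, Finset.sum_eq_zero_iff] at h0
    have := h0 x hx
    rw [Int.natAbs_eq_zero] at this
    exact (FreeAbelianGroup.mem_support_iff _ _).1 hx this
  | succ N ih =>
    intro z hz hl
    obtain ⟨x0, hx0⟩ := FreeAbelianGroup.nonempty_support_iff.2 hz
    set c := FreeAbelianGroup.coeff x0 z with hc
    have hc0 : c ≠ 0 := (FreeAbelianGroup.mem_support_iff _ _).1 hx0
    set s : SignType := SignType.sign c with hs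
    set z' := z - (s : ℤ) • FreeAbelianGroup.of x0 with hz'
    have hcoeff : ∀ x, FreeAbelianGroup.coeff x z' =
        FreeAbelianGroup.coeff x z - if x0 = x then (s : ℤ) else 0 := by
      intro x
      rw [hz', map_sub, map_zsmul, coeff_of]
      split_ifs <;> simp
    have hsupp : z'.support ⊆ z.support := by
      intro x hx
      rw [FreeAbelianGroup.mem_support_iff] at hx ⊢
      intro h0
      apply hx
      rw [hcoeff, h0]
      split_ifs with h
      · subst h
        exact absurd h0 hc0
      · simp
    have hsc : (c - (s : ℤ)).natAbs + 1 = c.natAbs := by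
      rcases lt_trichotomy c 0 with h | h | h
      · rw [hs, sign_neg h]
        simp only [SignType.coe_neg_one]
        omega
      · exact absurd h hc0
      · rw [hs, sign_pos h]
        simp only [SignType.coe_one]
        omega
    have hlen : length z' + 1 = length z := by
      rw [length_eq_sum_of_subset z' z.support hsupp, length, ← Finset.add_sum_erase _ _ hx0,
        ← Finset.add_sum_erase _ _ hx0]
      have h1 : ∑ x ∈ z.support.erase x0, (FreeAbelianGroup.coeff x z').natAbs =
          ∑ x ∈ z.support.erase x0, (FreeAbelianGroup.coeff x z).natAbs := by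
        refine Finset.sum_congr rfl (fun x hx => ?_)
        rw [hcoeff, if_neg (Finset.ne_of_mem_erase hx).symm, sub_zero]
      rw [h1, hcoeff, if_pos rfl, ← hc]
      omega
    have hzz : z = (s : ℤ) • FreeAbelianGroup.of x0 + z' := by
      rw [hz']; abel
    by_cases h0 : z' = 0
    · refine ⟨Fin.cons s 0, fun _ => x0, fun _ => hx0, ?_⟩
      rw [Fin.sum_univ_succ]
      simp only [Fin.cons_zero, Fin.cons_succ, Pi.zero_apply, SignType.coe_zero, zero_smul,
        Finset.sum_const_zero, add_zero]
      rw [h0, add_zero] at hzz
      exact hzz
    · obtain ⟨ε, x, hx, hsum⟩ := ih z' h0 (by omega)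
      refine ⟨Fin.cons s ε, Fin.cons x0 x, ?_, ?_⟩
      · intro i
        refine Fin.cases ?_ (fun j => ?_) i
        · simpa using hx0
        · simpa using hsupp (hx j)
      · rw [Fin.sum_univ_succ]
        simp only [Fin.cons_zero, Fin.cons_succ]
        rw [← hsum]
        exact hzz

end Length

end Pool.Agent.H.MP_1e4d5b_gt
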