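import Pool.Agent.H.MP_1e4d5b_gt.Basic

namespace Pool.Agent.H.MP_1e4d5b_gt

open Filter Topology Set Function

universe u v

section Lift

variable {X : Type u}

theorem lift_eq_sum (h : X → ℝ) (w : FreeAbelianGroup X) :
    FreeAbelianGroup.lift h w = ∑ x ∈ w.support, (FreeAbelianGroup.coeff x w : ℝ) * h x := by
  conv_lhs => rw [FreeAbelianGroup.eq_sum_support_coeff_smul_of w]
  rw [map_sum]
  refine Finset.sum_congr rfl (fun x _ => ?_)
  rw [map_zsmul, FreeAbelianGroup.lift_apply_of, zsmul_eq_mul]

theorem lift_eq_of_isolated (h : X → ℝ) (w : FreeAbelianGroup X) {x0 : X} (hx0 : x0 ∈ w.support)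
    (hh : ∀ x ∈ w.support, x ≠ x0 → h x = 0) :
    FreeAbelianGroup.lift h w = (FreeAbelianGroup.coeff x0 w : ℝ) * h x0 := by
  rw [lift_eq_sum]
  refine Finset.sum_eq_single_of_mem x0 hx0 (fun x hx hne => ?_)
  rw [hh x hx hne, mul_zero]

variable [TopologicalSpace X]

/-- A continuous function isolating a point of a finite set. -/
theorem exists_isolating [NormalSpace X] [T1Space X] (s : Finset X) (x0 : X) :
    ∃ h : C(X, ℝ), h x0 = 1 ∧ ∀ x ∈ s, x ≠ x0 → h x = 0 := by
  classical
  obtain ⟨h, h0, h1, _⟩ := exists_continuous_zero_one_of_isClosed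
    (s := ((s.erase x0 : Finset X) : Set X)) (t := {x0})
    (Finset.finite_toSet _).isClosed isClosed_singleton (by simp)
  refine ⟨h, h1 rfl, fun x hx hne => h0 ?_⟩
  simpa using ⟨hx, hne⟩

theorem exists_lift_ne_zero [NormalSpace X] [T1Space X] {w : FreeAbelianGroup X} (hw : w ≠ 0) :
    ∃ h : C(X, ℝ), FreeAbelianGroup.lift h w ≠ 0 := by
  obtain ⟨x0, hx0⟩ := FreeAbelianGroup.nonempty_support_iff.2 hw
  obtain ⟨h, h1, h0⟩ := exists_isolating w.support x0
  refine ⟨h, ?_⟩
  rw [lift_eq_of_isolated h w hx0 h0, h1, mul_one]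
  exact_mod_cast (FreeAbelianGroup.mem_support_iff _ _).1 hx0

theorem eq_zero_of_tendsto [NormalSpace X] [T1Space X] {z : ℕ → FreeAbelianGroup X}
    {w : FreeAbelianGroup X} (hz : Tendsto z atTop (𝓝 0)) (hw : Tendsto z atTop (𝓝 w)) :
    w = 0 := by
  by_contra hne
  obtain ⟨h, hh⟩ := exists_lift_ne_zero hne
  have hc := continuous_lift (H := ℝ) h.continuous
  have h1 := (hc.tendsto 0).comp hz
  have h2 := (hc.tendsto w).comp hw
  rw [map_zero] at h1
  exact hh (tendsto_nhds_unique h2 h1)

end Lift

section Baire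

variable {X : Type u} [TopologicalSpace X]

/-- The weighted locally finite sum of bump functions. -/
noncomputable def HH (b : ℕ → X → ℝ) (c : ℕ → ℝ) (x : X) : ℝ := ∑ᶠ k, c k * b k x

theorem finite_support (b : ℕ → X → ℝ) (hlf : LocallyFinite fun k => support (b k))
    (c : ℕ → ℝ) (x : X) : (support fun k => c k * b k x).Finite := by
  refine (hlf.point_finite x).subset (fun k hk => ?_)
  simp only [mem_support, mem_ofPred_eq] at hk ⊢
  exact right_ne_zero_of_mul hk

theorem continuous_HH (b : ℕ → X → ℝ) (hb : ∀ k, Continuous (b k))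
    (hlf : LocallyFinite fun k => support (b k)) (c : ℕ → ℝ) : Continuous (HH b c) := by
  refine continuous_finsum (fun k => continuous_const.mul (hb k)) (hlf.subset (fun k x hx => ?_))
  simp only [mem_support] at hx ⊢
  exact right_ne_zero_of_mul hx

theorem continuous_lift_HH (b : ℕ → X → ℝ) (hlf : LocallyFinite fun k => support (b k))
    (w : FreeAbelianGroup X) :
    Continuous fun c : ℕ → ℝ => FreeAbelianGroup.lift (HH b c) w := by
  induction w using FreeAbelianGroup.induction_on with
  | zero => simpa using continuous_const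
  | of x =>
    simp only [FreeAbelianGroup.lift_apply_of]
    have h : (fun c : ℕ → ℝ => HH b c x) =
        fun c => ∑ k ∈ (hlf.point_finite x).toFinset, c k * b k x := by
      funext c
      refine finsum_eq_sum_of_support_subset _ (fun k hk => ?_)
      simp only [mem_support] at hk
      simpa using right_ne_zero_of_mul hk
    rw [h]
    exact continuous_finsetSum _ (fun k _ => (continuous_apply k).mul continuous_const)
  | neg x hx =>
    simp only [map_neg]
    exact hx.neg
  | add x y hx hy =>
    simp only [map_add]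
    exact hx.add hy

theorem lift_HH_single (b : ℕ → X → ℝ) (hlf : LocallyFinite fun k => support (b k))
    (c : ℕ → ℝ) (k : ℕ) (a : ℝ) (w : FreeAbelianGroup X) :
    FreeAbelianGroup.lift (HH b (c + Pi.single k a)) w =
      FreeAbelianGroup.lift (HH b c) w + a * FreeAbelianGroup.lift (b k) w := by
  induction w using FreeAbelianGroup.induction_on with
  | zero => simp
  | of x =>
    simp only [FreeAbelianGroup.lift_apply_of]
    have h1 : HH b (c + Pi.single k a) x =
        ∑ᶠ l, (c l * b l x + (Pi.single k a : ℕ → ℝ) l * b l x) := by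
      unfold HH
      refine finsum_congr (fun l => ?_)
      rw [Pi.add_apply, add_mul]
    rw [h1, finsum_add_distrib (finite_support b hlf c x)
      (finite_support b hlf (Pi.single k a) x)]
    congr 1
    rw [finsum_eq_single _ k]
    · simp
    · intro l hl
      simp [hl]
  | neg x hx =>
    simp only [map_neg, hx]
    ring
  | add x y hx hy =>
    simp only [map_add, hx, hy]
    ring

theorem finite_of_tendsto_zero (b : ℕ → X → ℝ) (hb : ∀ k, Continuous (b k))
    (hlf : LocallyFinite fun k => support (b k)) {z : ℕ → FreeAbelianGroup X}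
    (hz : Tendsto z atTop (𝓝 0)) :
    {k | ∃ j, FreeAbelianGroup.lift (b k) (z j) ≠ 0}.Finite := by
  classical
  let E : ℕ → Set (ℕ → ℝ) := fun n => {c | ∀ j, |FreeAbelianGroup.lift (HH b c) (z j)| ≤ n}
  have hE : ∀ n, IsClosed (E n) := by
    intro n
    have : E n = ⋂ j, {c | |FreeAbelianGroup.lift (HH b c) (z j)| ≤ n} := by
      ext c; simp [E]
    rw [this]
    exact isClosed_iInter (fun j =>
      isClosed_le (continuous_lift_HH b hlf (z j)).abs continuous_const)
  have hU : ⋃ n, E n = univ := by
    rw [eq_univ_iff_forall]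
    intro c
    have hc := continuous_lift (H := ℝ) (continuous_HH b hb hlf c)
    have h1 : Tendsto (fun j => |FreeAbelianGroup.lift (HH b c) (z j)|) atTop (𝓝 |0|) := by
      have := (hc.tendsto 0).comp hz
      rw [map_zero] at this
      exact this.abs
    obtain ⟨B, hB⟩ := h1.bddAbove_range
    obtain ⟨n, hn⟩ := exists_nat_ge B
    refine mem_iUnion.2 ⟨n, fun j => ?_⟩
    exact (hB (mem_range_self j)).trans hn
  obtain ⟨n, c0, hc0⟩ := nonempty_interior_of_iUnion_of_closed hE hU
  obtain ⟨I, U, hIU, hsub⟩ := isOpen_pi_iff.1 isOpen_interior c0 hc0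
  refine (Finset.finite_toSet I).subset ?_
  rintro k ⟨j, hj⟩
  by_contra hk
  have hmem : ∀ a : ℝ, |FreeAbelianGroup.lift (HH b c0) (z j) +
      a * FreeAbelianGroup.lift (b k) (z j)| ≤ n := by
    intro a
    have h1 : c0 + Pi.single k a ∈ (I : Set ℕ).pi U := by
      intro i hi
      have hik : i ≠ k := by
        rintro rfl
        exact hk hi
      simpa [hik] using (hIU i hi).2
    have h2 := interior_subset (hsub h1) j
    rwa [lift_HH_single b hlf] at h2
  set α := FreeAbelianGroup.lift (HH b c0) (z j)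
  set β := FreeAbelianGroup.lift (b k) (z j)
  have h3 := hmem ((2 * n + 1) / β)
  have h4 := hmem 0
  rw [div_mul_cancel₀ _ hj] at h3
  rw [zero_mul, add_zero] at h4
  rw [abs_le] at h3 h4
  linarith [h3.2, h4.1]

end Baire

section Seq

variable {X : Type u} [TopologicalSpace X]

theorem not_closedEmbedding [NormalSpace X] [T1Space X] {z : ℕ → FreeAbelianGroup X}
    (hz : Tendsto z atTop (𝓝 0)) {s : ℕ → X} (hs : IsClosedEmbedding s)
    (hsz : ∀ k, ∃ j, s k ∈ (z j).support) : False := by
  classical
  obtain ⟨h, hh⟩ := ContinuousMap.exists_extension' hs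
    (⟨fun k : ℕ => (k : ℝ), continuous_of_discreteTopology⟩ : C(ℕ, ℝ))
  have hhk : ∀ k, h (s k) = k := fun k => congrFun hh k
  choose j hj using hsz
  choose ψ hψ1 hψ0 using fun k => exists_isolating (z (j k)).support (s k)
  let b : ℕ → X → ℝ := fun k x => max 0 (1 - 3 * |h x - k|) * ψ k x
  have hb : ∀ k, Continuous (b k) := by
    intro k
    have := h.continuous
    have := (ψ k).continuous
    fun_prop
  have hsupp : ∀ k x, b k x ≠ 0 → |h x - k| < 1 / 3 := by
    intro k x hx
    by_contra hcon
    rw [not_lt] at hcon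
    apply hx
    have : max 0 (1 - 3 * |h x - k|) = 0 := max_eq_left (by linarith)
    simp only [b, this, zero_mul]
  have hlf : LocallyFinite fun k => support (b k) := by
    intro x
    refine ⟨{y | |h y - h x| < 1 / 3}, ?_, ?_⟩
    · have hc : Continuous fun y => |h y - h x| := by
        have := h.continuous
        fun_prop
      refine (isOpen_lt hc continuous_const).mem_nhds ?_
      simp
    · refine (finite_Iic (⌈|h x| + 1⌉₊)).subset ?_
      rintro k ⟨y, hy1, hy2⟩
      have h1 := hsupp k y hy1
      have h2 : |h y - h x| < 1 / 3 := hy2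
      rw [mem_Iic]
      have h3 : (k : ℝ) ≤ |h x| + 1 := by
        have := le_abs_self (h x)
        rw [abs_lt] at h1 h2
        linarith [h1.1, h1.2, h2.1, h2.2]
      exact_mod_cast h3.trans (Nat.le_ceil _)
  have hfin := finite_of_tendsto_zero b hb hlf hz
  have huniv : {k | ∃ j, FreeAbelianGroup.lift (b k) (z j) ≠ 0} = univ := by
    rw [eq_univ_iff_forall]
    intro k
    refine ⟨j k, ?_⟩
    rw [lift_eq_of_isolated (b k) (z (j k)) (hj k)]
    · have : b k (s k) = 1 := by
        simp [b, hhk, hψ1]
      rw [this, mul_one]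
      exact_mod_cast (FreeAbelianGroup.mem_support_iff _ _).1 (hj k)
    · intro x hx hne
      simp [b, hψ0 k x hx hne]
  rw [huniv] at hfin
  exact infinite_univ hfin

end Seq

section Metric

variable {X : Type u} [TopologicalSpace X] {M : Type v} [MetricSpace M]

theorem isCompact_closure_of_seq {T : Set M}
    (h : ∀ e : ℕ → M, (∀ n, e n ∈ T) → ∃ a, ∃ φ : ℕ → ℕ, StrictMono φ ∧
      Tendsto (e ∘ φ) atTop (𝓝 a)) : IsCompact (closure T) := by
  refine IsSeqCompact.isCompact (fun y hy => ?_)
  have h1 : ∀ n : ℕ, ∃ e ∈ T, dist (y n) e < 1 / ((n : ℝ) + 1) := by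
    intro n
    exact Metric.mem_closure_iff.1 (hy n) _ (by positivity)
  choose e he hd using h1
  obtain ⟨a, φ, hφ, ha⟩ := h e he
  have h2 : Tendsto (y ∘ φ) atTop (𝓝 a) := by
    refine (tendsto_iff_of_dist ?_).1 ha
    have h3 : Tendsto (fun n : ℕ => 1 / ((n : ℝ) + 1)) atTop (𝓝 0) :=
      tendsto_one_div_add_atTop_nhds_zero_nat
    refine squeeze_zero (fun _ => dist_nonneg) (fun n => ?_) (h3.comp hφ.tendsto_atTop)
    rw [dist_comm]
    exact (hd (φ n)).le
  refine ⟨a, ?_, φ, hφ, h2⟩
  exact isClosed_closure.mem_of_tendsto h2 (Eventually.of_forall (fun n => hy _))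

theorem isCompact_closure_support [NormalSpace X] [T1Space X] {f : M → X} (hc : IsClosedMap f)
    {σ : X → M} (hσ : ∀ x, f (σ x) = x) {z : ℕ → FreeAbelianGroup X}
    (hz : Tendsto z atTop (𝓝 0)) :
    IsCompact (closure {p | ∃ j, ∃ x ∈ (z j).support, σ x = p}) := by
  refine isCompact_closure_of_seq (fun e he => ?_)
  by_contra hcon
  have hcl : ∀ a : M, ∃ U ∈ 𝓝 a, ∀ᶠ n in atTop, e n ∉ U := by
    intro a
    by_contra hno
    push Not at hno
    apply hcon
    have : MapClusterPt a atTop e := by
      rw [mapClusterPt_iff_frequently]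
      intro s hs
      exact hno s hs
    obtain ⟨ψ, h1, h2⟩ := this.tendsto_subseq
    exact ⟨a, ψ, h1, h2⟩
  have hinf : (range e).Infinite := by
    intro hfin
    have h1 : ∀ᶠ n in atTop, ∀ a ∈ range e, e n ≠ a := by
      rw [eventually_all_finite hfin]
      intro a _
      obtain ⟨U, hU, hev⟩ := hcl a
      filter_upwards [hev] with n hn heq
      rw [heq] at hn
      exact hn (mem_of_mem_nhds hU)
    obtain ⟨n, hn⟩ := h1.exists
    exact hn (e n) (mem_range_self n) rfl
  let t := hinf.natEmbedding
  have hlf : LocallyFinite (fun k => ({(t k : M)} : Set M)) := by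
    intro a
    obtain ⟨U, hU, hev⟩ := hcl a
    refine ⟨U, hU, ?_⟩
    obtain ⟨n0, hn0⟩ := eventually_atTop.1 hev
    have h1 : {k | (({(t k : M)} : Set M) ∩ U).Nonempty} ⊆
        (fun k => (t k : M)) ⁻¹' (e '' (Iio n0)) := by
      rintro k ⟨y, hy1, hy2⟩
      rw [mem_singleton_iff] at hy1
      subst hy1
      obtain ⟨n, hn⟩ := (t k).2
      refine ⟨n, ?_, hn⟩
      rw [mem_Iio]
      by_contra hge
      rw [not_lt] at hge
      apply hn0 n hge
      rw [hn]
      exact hy2
    refine Finite.subset (Finite.preimage ?_ ((finite_Iio n0).image e)) h1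
    exact (Subtype.val_injective.comp t.injective).injOn
  have htcl : ∀ K : Set ℕ, IsClosed ((fun k => (t k : M)) '' K) := by
    intro K
    have : (fun k => (t k : M)) '' K = ⋃ k : K, ({(t k : M)} : Set M) := by
      ext y
      simp [eq_comm]
    rw [this]
    exact (hlf.comp_injective Subtype.val_injective).isClosed_iUnion
      (fun k => isClosed_singleton)
  have htσ : ∀ k, σ (f (t k)) = t k := by
    intro k
    obtain ⟨n, hn⟩ := (t k).2
    obtain ⟨j, x, hx, hxe⟩ := he n
    rw [← hn, ← hxe, hσ]
  have hs : IsClosedEmbedding (fun k => f (t k)) := by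
    refine IsClosedEmbedding.of_continuous_injective_isClosedMap continuous_of_discreteTopology
      ?_ ?_
    · intro k l hkl
      have : (t k : M) = t l := by
        rw [← htσ k, ← htσ l]
        exact congrArg σ hkl
      exact t.injective (Subtype.ext this)
    · intro K _
      have : (fun k => f (t k)) '' K = f '' ((fun k => (t k : M)) '' K) := by
        rw [image_image]
      rw [this]
      exact hc _ (htcl K)
  refine not_closedEmbedding hz hs (fun k => ?_)
  obtain ⟨n, hn⟩ := (t k).2
  obtain ⟨j, x, hx, hxe⟩ := he n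
  refine ⟨j, ?_⟩
  rw [← hn, ← hxe, hσ]
  exact hx

end Metric

end Pool.Agent.H.MP_1e4d5b_gt
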