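import Mathlib

/-!
# Free abelian topological groups, their levels, and csf-countability: definitions
-/

namespace Pool.Agent.H.MP_1e4d5b_gt

open Filter Topology

universe u v

/-- The topology of the Markov free abelian topological group `A(X)` on the free abelian group
over `X`: the finest group topology for which the inclusion of the generators
`X → FreeAbelianGroup X` is continuous.  (In Mathlib's order on topologies the finest topology
of a family is its infimum.) -/
instance markovTopology (X : Type u) [TopologicalSpace X] :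
    TopologicalSpace (FreeAbelianGroup X) :=
  sInf {t | @IsTopologicalAddGroup (FreeAbelianGroup X) t _ ∧
    @Continuous X (FreeAbelianGroup X) _ t FreeAbelianGroup.of}

/-- The length `|k₁| + ⋯ + |k_m|` of an element of the free abelian group with reduced form
`k₁ x₁ + ⋯ + k_m x_m`. -/
noncomputable def length {X : Type u} (g : FreeAbelianGroup X) : ℕ :=
  ∑ x ∈ g.support, (FreeAbelianGroup.coeff x g).natAbs

/-- `A_n(X)`: the elements of length at most `n` (used with the subspace topology). -/
def level (X : Type u) (n : ℕ) : Set (FreeAbelianGroup X) :=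
  {g | length g ≤ n}

/-- `𝒩` is a cs-network at the point `y`. -/
def IsCsNetworkAt {Y : Type u} [TopologicalSpace Y] (y : Y) (𝒩 : Set (Set Y)) : Prop :=
  (∀ P ∈ 𝒩, y ∈ P) ∧
    ∀ s : ℕ → Y, Tendsto s atTop (𝓝 y) → ∀ U : Set Y, IsOpen U → y ∈ U →
      ∃ P ∈ 𝒩, P ⊆ U ∧ ∀ᶠ j in atTop, s j ∈ P

/-- `Y` is csf-countable: every point has a countable cs-network at it. -/
def CsfCountable (Y : Type u) [TopologicalSpace Y] : Prop :=
  ∀ y : Y, ∃ 𝒩 : Set (Set Y), 𝒩.Countable ∧ IsCsNetworkAt y 𝒩

end Pool.Agent.H.MP_1e4d5b_gt
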