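import Pool.Agent.H.MP_1e4d5b_gt.Necessity

namespace Pool.Agent.H.MP_1e4d5b_gt

open Filter Topology Set Function

universe u v w

theorem normalSpace_of_closedMap {X : Type u} [TopologicalSpace X] {M : Type v}
    [TopologicalSpace M] [NormalSpace M] {f : M → X} (hf : Continuous f) (hc : IsClosedMap f)
    (hs : Surjective f) : NormalSpace X := by
  refine ⟨fun s t hsc htc hst => ?_⟩
  obtain ⟨U, V, hU, hV, hsU, htV, hUV⟩ := normal_separation (hsc.preimage hf) (htc.preimage hf)
    (hst.preimage f)
  refine ⟨(f '' Uᶜ)ᶜ, (f '' Vᶜ)ᶜ, (hc _ hU.isClosed_compl).isOpen_compl,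
    (hc _ hV.isClosed_compl).isOpen_compl, ?_, ?_, ?_⟩
  · rintro _ hx ⟨p, hp, rfl⟩
    exact hp (hsU hx)
  · rintro _ hx ⟨p, hp, rfl⟩
    exact hp (htV hx)
  · rw [Set.disjoint_left]
    intro x hx hx'
    obtain ⟨p, rfl⟩ := hs x
    have h1 : p ∈ U := by
      by_contra h
      exact hx ⟨p, h, rfl⟩
    have h2 : p ∈ V := by
      by_contra h
      exact hx' ⟨p, h, rfl⟩
    exact Set.disjoint_left.1 hUV h1 h2

/-- Sanity check: the universal property of `FreeAbelianGroup X` with the Markov topology. -/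
theorem universal_property {X : Type u} [TopologicalSpace X] {H : Type w} [AddCommGroup H]
    [TopologicalSpace H] [IsTopologicalAddGroup H] (h : X → H) (hh : Continuous h) :
    ∃! φ : FreeAbelianGroup X →+ H, Continuous φ ∧ ∀ x, φ (FreeAbelianGroup.of x) = h x := by
  refine ⟨FreeAbelianGroup.lift h, ⟨continuous_lift hh, fun x => by simp⟩, ?_⟩
  rintro ψ ⟨-, hψ⟩
  refine FreeAbelianGroup.lift_ext _ _ (fun x => ?_)
  rw [hψ, FreeAbelianGroup.lift_apply_of]

/-- Sanity check: over a Tychonoff space the space of generators is topologically embedded in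
`FreeAbelianGroup X` with the Markov topology. -/
theorem isEmbedding_of {X : Type u} [TopologicalSpace X] [T35Space X] :
    IsEmbedding (FreeAbelianGroup.of : X → FreeAbelianGroup X) := by
  refine ⟨isInducing_iff_nhds.2 (fun x => le_antisymm
    (tendsto_iff_comap.1 (continuous_of.tendsto x)) ?_), FreeAbelianGroup.of_injective⟩
  intro W hW
  obtain ⟨U, hUW, hU, hx⟩ := mem_nhds_iff.1 hW
  obtain ⟨h, hc, h0, h1⟩ := CompletelyRegularSpace.completely_regular x Uᶜ hU.isClosed_compl
    (by simpa using hx)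
  have hc' : Continuous fun y => (h y : ℝ) := continuous_subtype_val.comp hc
  have hL := continuous_lift (H := ℝ) hc'
  have hV : IsOpen {g : FreeAbelianGroup X | FreeAbelianGroup.lift (fun y => (h y : ℝ)) g < 1} :=
    isOpen_lt hL continuous_const
  rw [mem_comap]
  refine ⟨_, hV.mem_nhds ?_, ?_⟩
  · simp [h0]
  · intro y hy
    apply hUW
    by_contra hyU
    have h2 := h1 hyU
    simp only [mem_preimage, mem_ofPred_eq, FreeAbelianGroup.lift_apply_of] at hy
    rw [h2] at hy
    simp at hy

theorem main {X : Type u} [TopologicalSpace X] [T2Space X] {M : Type v} [TopologicalSpace M]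
    [TopologicalSpace.MetrizableSpace M] {f : M → X} (hf : Continuous f) (hc : IsClosedMap f)
    (hs : Surjective f) {m : ℕ} (hm : 2 ≤ m) (h : CsfCountable (level X m)) (n : ℕ) :
    CsfCountable (level X n) := by
  let _ : MetricSpace M := TopologicalSpace.metrizableSpaceMetric M
  have : NormalSpace X := normalSpace_of_closedMap hf hc hs
  obtain ⟨ℬ, hℬc, hℬ⟩ := exists_outerBase hf hc hm h
  exact csfCountable_of_outerBase hf hc hs hℬc hℬ n

end Pool.Agent.H.MP_1e4d5b_gt
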