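import Pool.Agent.H.MP_1e4d5b_gt.Network

namespace Pool.Agent.H.MP_1e4d5b_gt

open Filter Topology Set Function

universe u v

/-- A countable family of infinite sets has an injective choice function. -/
theorem exists_injective_choice {ι : Type u} {α : Type v} [Countable ι] (I : ι → Set α)
    (hI : ∀ i, (I i).Infinite) : ∃ p : ι → α, Injective p ∧ ∀ i, p i ∈ I i := by
  classical
  obtain ⟨e, he⟩ := exists_injective_nat ι
  choose t ht htc using fun i => (hI i).exists_subset_card_eq (e i + 1)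
  obtain ⟨p, hp, hpt⟩ := (Finset.all_card_le_biUnion_card_iff_exists_injective t).1 (by
    intro s
    rcases s.eq_empty_or_nonempty with rfl | hs
    · simp
    · obtain ⟨i, hi, hmax⟩ := s.exists_max_image e hs
      have h1 : s.card ≤ e i + 1 := by
        have h2 : (s.image e) ⊆ Finset.range (e i + 1) := by
          intro n hn
          rw [Finset.mem_image] at hn
          obtain ⟨j, hj, rfl⟩ := hn
          rw [Finset.mem_range]
          have := hmax j hj
          omega
        have h3 := Finset.card_le_card h2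
        rwa [Finset.card_image_of_injective s he, Finset.card_range] at h3
      rw [← htc i] at h1
      exact h1.trans (Finset.card_le_card (Finset.subset_biUnion_of_mem t hi)))
  exact ⟨p, hp, fun i => ht i (hpt i)⟩

variable {X : Type u} [TopologicalSpace X] {M : Type v} [MetricSpace M]

theorem isClosed_of_separated {s : Set M} {r : ℝ} (hr : 0 < r)
    (hs : ∀ x ∈ s, ∀ y ∈ s, x ≠ y → r ≤ dist x y) : IsClosed s := by
  refine isClosed_of_closure_subset (fun a ha => ?_)
  rw [Metric.mem_closure_iff] at ha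
  obtain ⟨x, hx, hxa⟩ := ha (r / 2) (by linarith)
  by_cases hax : a = x
  · rw [hax]; exact hx
  · obtain ⟨y, hy, hya⟩ := ha (min (r / 2) (dist a x)) (lt_min (by linarith) (dist_pos.2 hax))
    by_cases hxy : x = y
    · subst hxy
      exact absurd (hya.trans_le (min_le_right _ _)) (lt_irrefl _)
    · have h1 := hs x hx y hy hxy
      have h2 := dist_triangle_left x y a
      have h3 := hya.trans_le (min_le_left _ _)
      linarith

/-- If some level `A_m(X)`, `m ≥ 2`, has a countable cs-network at `0`, then there is no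
uncountable separated set of points lying on the boundary of their fibres. -/
theorem countable_of_separated [NormalSpace X] [T1Space X] {f : M → X} (hf : Continuous f)
    (hc : IsClosedMap f) {m : ℕ} (hm : 2 ≤ m) (hcsf : CsfCountable (level X m)) {r : ℝ}
    (hr : 0 < r) {S : Set M} (hSb : S ⊆ bd f)
    (hS : ∀ x ∈ S, ∀ y ∈ S, x ≠ y → r ≤ dist x y) : S.Countable := by
  classical
  have h0m : (0 : FreeAbelianGroup X) ∈ level X m := by
    change length _ ≤ m
    rw [length_zero]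
    exact Nat.zero_le _
  obtain ⟨𝒩, h𝒩c, -, h𝒩⟩ := hcsf ⟨0, h0m⟩
  -- sequences
  have hq : ∀ p : S, ∃ q : ℕ → M, (∀ n, f (q n) ≠ f p) ∧ Tendsto q atTop (𝓝 (p : M)) := by
    intro p
    exact mem_closure_iff_seq_limit.1 (hSb p.2)
  choose q hqne hqlim using hq
  let g : S → ℕ → level X m := fun p n =>
    ⟨FreeAbelianGroup.of (f (q p n)) - FreeAbelianGroup.of (f p),
      (length_of_sub_of_le _ _).trans hm⟩
  have hg : ∀ p, Tendsto (g p) atTop (𝓝 (⟨0, h0m⟩ : level X m)) := by
    intro p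
    rw [tendsto_subtype_rng]
    have h1 := (((continuous_of.comp hf).tendsto (p : M)).comp (hqlim p)).sub
      (tendsto_const_nhds (x := (FreeAbelianGroup.of (f p) : FreeAbelianGroup X)))
    simp only [comp_apply, sub_self] at h1
    exact h1
  let I : Set (level X m) → Set S := fun P => {p | ∀ᶠ n in atTop, g p n ∈ P}
  let ι := {P : Set (level X m) // P ∈ 𝒩 ∧ ¬ (I P).Countable}
  have hιc : Countable ι := by
    have : Countable 𝒩 := h𝒩c.to_subtype
    exact Injective.countable (f := fun P : ι => (⟨P.1, P.2.1⟩ : 𝒩)) (by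
      intro P Q h
      exact Subtype.ext (Subtype.mk.inj h))
  obtain ⟨p, hpinj, hpI⟩ := exists_injective_choice (fun P : ι => I P.1)
    (fun P hfin => P.2.2 hfin.countable)
  -- the first closed set
  have hp_sep : ∀ P Q : ι, P ≠ Q → r ≤ dist (p P : M) (p Q) := by
    intro P Q hPQ
    refine hS _ (p P).2 _ (p Q).2 (fun h => hPQ (hpinj (Subtype.ext h)))
  have hclosed : ∀ K : Set ι, IsClosed (f '' ((fun P : ι => (p P : M)) '' K)) := by
    intro K
    refine hc _ (isClosed_of_separated hr ?_)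
    rintro _ ⟨P, hP, rfl⟩ _ ⟨Q, hQ, rfl⟩ hne
    exact hp_sep P Q (fun h => hne (by rw [h]))
  let C0 : Set X := range fun P : ι => f (p P)
  have hC0 : IsClosed C0 := by
    have := hclosed univ
    rwa [image_univ, ← range_comp] at this
  -- choose the indices
  have hn : ∀ P : ι, ∃ n, g (p P) n ∈ P.1 ∧ f (q (p P) n) ∉ C0 ∧
      dist (q (p P) n) (p P) < r / 3 := by
    intro P
    have h1 : ∀ᶠ n in atTop, g (p P) n ∈ P.1 := hpI P
    have h2 : ∀ᶠ n in atTop, dist (q (p P) n) (p P) < r / 3 :=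
      (tendsto_iff_dist_tendsto_zero.1 (hqlim (p P))).eventually_lt_const (by linarith)
    have h3 : ∀ᶠ n in atTop, f (q (p P) n) ∉
        f '' ((fun P : ι => (p P : M)) '' {Q | f (p Q) ≠ f (p P)}) := by
      have h4 : (f '' ((fun P : ι => (p P : M)) '' {Q | f (p Q) ≠ f (p P)}))ᶜ ∈ 𝓝 (f (p P)) := by
        refine (hclosed _).isOpen_compl.mem_nhds ?_
        rintro ⟨_, ⟨Q, hQ, rfl⟩, hQP⟩
        exact hQ hQP
      exact ((hf.tendsto _).comp (hqlim (p P))).eventually_mem h4
    obtain ⟨n, hn1, hn2, hn3⟩ := (h1.and (h2.and h3)).exists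
    refine ⟨n, hn1, ?_, hn2⟩
    rintro ⟨Q, hQ⟩
    by_cases hQP : f (p Q) = f (p P)
    · exact hqne (p P) n (by rw [← hQ]; exact hQP)
    · exact hn3 ⟨p Q, ⟨Q, hQP, rfl⟩, hQ⟩
  choose n hng hnC hnd using hn
  let C1 : Set X := f '' (range fun P : ι => q (p P) (n P))
  have hC1 : IsClosed C1 := by
    refine hc _ (isClosed_of_separated (r := r / 3) (by linarith) ?_)
    rintro _ ⟨P, rfl⟩ _ ⟨Q, rfl⟩ hne
    have hPQ : P ≠ Q := fun h => hne (by rw [h])
    have h1 := hp_sep P Q hPQ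
    have h2 := hnd P
    have h3 := hnd Q
    dsimp only
    have h4 := dist_triangle4 (p P : M) (q (p P) (n P)) (q (p Q) (n Q)) (p Q)
    have h5 := dist_comm (p P : M) (q (p P) (n P))
    linarith
  have hdisj : Disjoint C0 C1 := by
    rw [Set.disjoint_left]
    rintro x hx ⟨_, ⟨P, rfl⟩, rfl⟩
    exact hnC P hx
  obtain ⟨h, hh0, hh1, -⟩ := exists_continuous_zero_one_of_isClosed hC0 hC1 hdisj
  have hcont := continuous_lift (H := ℝ) h.continuous
  let U : Set (level X m) := {w | |FreeAbelianGroup.lift h (w : FreeAbelianGroup X)| < 1}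
  have hU : IsOpen U :=
    isOpen_lt (hcont.comp continuous_subtype_val).abs continuous_const
  have h0U : (⟨0, h0m⟩ : level X m) ∈ U := by
    change |FreeAbelianGroup.lift h (0 : FreeAbelianGroup X)| < 1
    simp
  have hcount : ∀ P ∈ 𝒩, P ⊆ U → (I P).Countable := by
    intro P hP hPU
    by_contra hnc
    have h1 := hPU (hng ⟨P, hP, hnc⟩)
    have h2 : |FreeAbelianGroup.lift h (FreeAbelianGroup.of
      (f (q (p ⟨P, hP, hnc⟩) (n ⟨P, hP, hnc⟩))) -
        FreeAbelianGroup.of (f (p ⟨P, hP, hnc⟩)))| < 1 := h1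
    rw [map_sub, FreeAbelianGroup.lift_apply_of, FreeAbelianGroup.lift_apply_of,
      hh1 ⟨_, ⟨⟨P, hP, hnc⟩, rfl⟩, rfl⟩, hh0 ⟨⟨P, hP, hnc⟩, rfl⟩] at h2
    simp at h2
  have hcov : (univ : Set S) ⊆ ⋃ P ∈ {P | P ∈ 𝒩 ∧ P ⊆ U}, I P := by
    intro s _
    obtain ⟨P, hP, hPU, hev⟩ := h𝒩 (g s) (hg s) U hU h0U
    exact mem_iUnion₂.2 ⟨P, ⟨hP, hPU⟩, hev⟩
  have hfinal : (univ : Set S).Countable := by
    refine Countable.mono hcov (Countable.biUnion (h𝒩c.mono fun P hP => hP.1) ?_)
    intro P hP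
    exact hcount P hP.1 hP.2
  exact (countable_coe_iff.1 (countable_univ_iff.1 hfinal))

theorem exists_maximal_separated (E : Set M) {r : ℝ} (hr : 0 < r) : ∃ S ⊆ E,
    (∀ x ∈ S, ∀ y ∈ S, x ≠ y → r ≤ dist x y) ∧ ∀ x ∈ E, ∃ y ∈ S, dist x y < r := by
  obtain ⟨S, hS⟩ := zorn_subset {S : Set M | S ⊆ E ∧ ∀ x ∈ S, ∀ y ∈ S, x ≠ y → r ≤ dist x y} (by
    intro c hc hchain
    refine ⟨⋃₀ c, ⟨sUnion_subset fun s hs => (hc hs).1, ?_⟩, fun s hs => subset_sUnion_of_mem hs⟩
    rintro x ⟨s, hs, hxs⟩ y ⟨t, ht, hyt⟩ hxy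
    rcases hchain.total hs ht with hst | hts
    · exact (hc ht).2 x (hst hxs) y hyt hxy
    · exact (hc hs).2 x hxs y (hts hyt) hxy)
  refine ⟨S, hS.prop.1, hS.prop.2, fun x hx => ?_⟩
  by_contra hcon
  push Not at hcon
  have h1 : insert x S ∈ {S : Set M | S ⊆ E ∧ ∀ x ∈ S, ∀ y ∈ S, x ≠ y → r ≤ dist x y} := by
    refine ⟨insert_subset hx hS.prop.1, ?_⟩
    rintro y (rfl | hy) z (rfl | hz) hyz
    · exact absurd rfl hyz
    · exact hcon z hz
    · rw [dist_comm]
      exact hcon y hy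
    · exact hS.prop.2 y hy z hz hyz
  have h2 : insert x S ⊆ S := hS.le_of_ge h1 (subset_insert x S)
  have h3 := hcon x (h2 (mem_insert x S))
  rw [dist_self] at h3
  linarith

theorem exists_outerBase [NormalSpace X] [T1Space X] {f : M → X} (hf : Continuous f)
    (hc : IsClosedMap f) {m : ℕ} (hm : 2 ≤ m) (hcsf : CsfCountable (level X m)) :
    ∃ ℬ : Set (Set M), ℬ.Countable ∧ OuterBase f ℬ := by
  choose S hSE hS hSd using fun n : ℕ =>
    exists_maximal_separated (bd f) (r := 1 / ((n : ℝ) + 1)) (by positivity)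
  have hSc : ∀ n, (S n).Countable := fun n =>
    countable_of_separated hf hc hm hcsf (r := 1 / ((n : ℝ) + 1)) (by positivity) (hSE n) (hS n)
  refine ⟨⋃ n : ℕ, (fun s => Metric.ball s (1 / ((n : ℝ) + 1))) '' S n,
    countable_iUnion fun n => (hSc n).image _, ?_, ?_⟩
  · rintro B hB
    obtain ⟨n, s, hs, rfl⟩ := mem_iUnion.1 hB
    exact Metric.isOpen_ball
  · intro p hp U hU
    obtain ⟨δ, hδ, hball⟩ := Metric.mem_nhds_iff.1 hU
    obtain ⟨n, hn⟩ := exists_nat_one_div_lt (half_pos hδ)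
    obtain ⟨s, hs, hps⟩ := hSd n p hp
    refine ⟨_, mem_iUnion.2 ⟨n, s, hs, rfl⟩, hps, ?_⟩
    refine Subset.trans (fun y hy => ?_) hball
    rw [Metric.mem_ball] at hy ⊢
    have := dist_triangle_right y p s
    linarith

end Pool.Agent.H.MP_1e4d5b_gt
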