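import Pool.Agent.H.MP_1e4d5b_gt.Compact

namespace Pool.Agent.H.MP_1e4d5b_gt

open Filter Topology Set Function

universe u v

variable {X : Type u} {M : Type v} [MetricSpace M]

/-- The points of `M` which lie on the boundary of their fibre. -/
def bd (f : M → X) : Set M := {p | p ∈ closure {q | f q ≠ f p}}

theorem notMem_bd_iff {f : M → X} {p : M} : p ∉ bd f ↔ ∀ᶠ q in 𝓝 p, f q = f p := by
  unfold bd
  rw [mem_ofPred_eq, mem_closure_iff_frequently, not_frequently]
  simp

theorem isClosed_bd (f : M → X) : IsClosed (bd f) := by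
  rw [← isOpen_compl_iff, isOpen_iff_mem_nhds]
  intro p hp
  rw [mem_compl_iff, notMem_bd_iff] at hp
  filter_upwards [eventually_eventually_nhds.2 hp] with q hq
  rw [mem_compl_iff, notMem_bd_iff]
  have hqp : f q = f p := hq.self_of_nhds
  rw [hqp]
  exact hq

variable [TopologicalSpace X]

/-- The members of the network. -/
def PP (f : M → X) (N : ℕ) (F : Finset (Set M)) : Set (FreeAbelianGroup X) :=
  {g | g = 0 ∨ ∃ u v : Fin N → M, (∀ i, f (u i) = f (v i) ∨ ∃ B ∈ F, u i ∈ B ∧ v i ∈ B) ∧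
    g = ∑ i, (FreeAbelianGroup.of (f (u i)) - FreeAbelianGroup.of (f (v i)))}

/-- A countable outer base. -/
def OuterBase (f : M → X) (ℬ : Set (Set M)) : Prop :=
  (∀ B ∈ ℬ, IsOpen B) ∧ ∀ p ∈ bd f, ∀ U ∈ 𝓝 p, ∃ B ∈ ℬ, p ∈ B ∧ B ⊆ U

theorem exists_nhds_sum {G : Type u} [AddCommGroup G] [TopologicalSpace G]
    [IsTopologicalAddGroup G] (N : ℕ) {U : Set G} (hU : U ∈ 𝓝 (0 : G)) :
    ∃ V ∈ 𝓝 (0 : G), ∀ w : Fin N → G, (∀ i, w i ∈ V) → ∑ i, w i ∈ U := by
  induction N generalizing U with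
  | zero => exact ⟨univ, univ_mem, fun w _ => by simpa using mem_of_mem_nhds hU⟩
  | succ N ih =>
    obtain ⟨V, hV, hVU⟩ := exists_nhds_zero_half hU
    obtain ⟨W, hW, hWV⟩ := ih hV
    refine ⟨V ∩ W, inter_mem hV hW, fun w hw => ?_⟩
    rw [Fin.sum_univ_succ]
    exact hVU _ (hw 0).1 _ (hWV _ (fun i => (hw i.succ).2))

theorem exists_network [NormalSpace X] [T1Space X] {f : M → X} (hf : Continuous f)
    (hc : IsClosedMap f) (hs : Surjective f) {ℬ : Set (Set M)} (hℬ : OuterBase f ℬ) (N : ℕ)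
    {z : ℕ → FreeAbelianGroup X} (hz : Tendsto z atTop (𝓝 0)) (hlen : ∀ j, length (z j) ≤ N)
    {U : Set (FreeAbelianGroup X)} (hU : U ∈ 𝓝 0) :
    ∃ F : Finset (Set M), (F : Set (Set M)) ⊆ ℬ ∧ PP f N F ⊆ U ∧ ∀ᶠ j in atTop, z j ∈ PP f N F := by
  classical
  obtain ⟨σ, hσ⟩ := hs.hasRightInverse
  obtain ⟨V, hV, hVU⟩ := exists_nhds_sum N hU
  have hO : ∀ p : M, ∃ O ∈ 𝓝 p, ∀ u ∈ O, ∀ v ∈ O,
      FreeAbelianGroup.of (f u) - FreeAbelianGroup.of (f v) ∈ V := by
    intro p
    have hcont : Continuous fun q : M × M =>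
        (FreeAbelianGroup.of (f q.1) - FreeAbelianGroup.of (f q.2) : FreeAbelianGroup X) :=
      (continuous_of.comp (hf.comp continuous_fst)).sub
        (continuous_of.comp (hf.comp continuous_snd))
    have h1 : (fun q : M × M =>
        (FreeAbelianGroup.of (f q.1) - FreeAbelianGroup.of (f q.2) : FreeAbelianGroup X)) ⁻¹' V
          ∈ 𝓝 (p, p) := by
      apply hcont.continuousAt.preimage_mem_nhds
      simpa using hV
    rw [nhds_prod_eq, mem_prod_same_iff] at h1
    obtain ⟨O, hO, hsub⟩ := h1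
    exact ⟨O, hO, fun u hu v hv => by
      have := hsub (Set.mk_mem_prod hu hv)
      exact this⟩
  choose O hOp hOV using hO
  set L : Set M := closure {p | ∃ j, ∃ x ∈ (z j).support, σ x = p} with hL
  have hLc : IsCompact L := isCompact_closure_support hc hσ hz
  have hK : IsCompact (L ∩ bd f) := hLc.inter_right (isClosed_bd f)
  have hB : ∀ p ∈ L ∩ bd f, ∃ B ∈ ℬ, p ∈ B ∧ B ⊆ O p :=
    fun p hp => hℬ.2 p hp.2 (O p) (hOp p)
  choose! B hBℬ hpB hBO using hB
  obtain ⟨t, ht, hcover⟩ := hK.elim_nhds_subcover B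
    (fun p hp => (hℬ.1 _ (hBℬ p hp)).mem_nhds (hpB p hp))
  refine ⟨t.image B, ?_, ?_, ?_⟩
  · intro C hC
    rw [Finset.mem_coe, Finset.mem_image] at hC
    obtain ⟨p, hp, rfl⟩ := hC
    exact hBℬ p (ht p hp)
  · rintro g (rfl | ⟨u, v, huv, rfl⟩)
    · exact mem_of_mem_nhds hU
    · refine hVU _ (fun i => ?_)
      rcases huv i with h | ⟨C, hC, h1, h2⟩
      · rw [h, sub_self]
        exact mem_of_mem_nhds hV
      · rw [Finset.mem_image] at hC
        obtain ⟨p, hp, rfl⟩ := hC
        exact hOV p _ (hBO p (ht p hp) h1) _ (hBO p (ht p hp) h2)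
  · by_contra hcon
    rw [not_eventually] at hcon
    obtain ⟨φ, hφ, hφP⟩ := extraction_of_frequently_atTop hcon
    have hne : ∀ k, z (φ k) ≠ 0 := fun k h0 => hφP k (Or.inl h0)
    choose ε x hx hzx using fun k => exists_rep N (z (φ k)) (hne k) (hlen _)
    have hpig : ∃ ε0, ∃ᶠ k in atTop, ε k = ε0 := by
      by_contra hno
      push Not at hno
      have h1 : ∀ᶠ k in atTop, ∀ ε0, ε k ≠ ε0 := by
        rw [eventually_all]
        exact hno
      obtain ⟨k, hk⟩ := h1.exists
      exact hk (ε k) rfl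
    obtain ⟨ε0, hε0⟩ := hpig
    obtain ⟨φ2, hφ2, hε⟩ := extraction_of_frequently_atTop hε0
    have hcomp : IsCompact (Set.pi univ fun _ : Fin N => L) := isCompact_univ_pi fun _ => hLc
    have hmem : ∀ k, (fun i => σ (x (φ2 k) i)) ∈ Set.pi univ fun _ : Fin N => L := by
      intro k i _
      exact subset_closure ⟨φ (φ2 k), x (φ2 k) i, hx _ i, rfl⟩
    obtain ⟨a, haL, φ3, hφ3, ha⟩ := hcomp.tendsto_subseq hmem
    rw [tendsto_pi_nhds] at ha
    have haL' : ∀ i, a i ∈ L := fun i => haL i (mem_univ i)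
    -- the limit
    have hzw : Tendsto (fun k => z (φ (φ2 (φ3 k)))) atTop
        (𝓝 (∑ i, (ε0 i : ℤ) • FreeAbelianGroup.of (f (a i)))) := by
      have h1 : (fun k => z (φ (φ2 (φ3 k)))) = fun k => ∑ i, (ε0 i : ℤ) •
          FreeAbelianGroup.of (f (σ (x (φ2 (φ3 k)) i))) := by
        funext k
        rw [hzx (φ2 (φ3 k)), hε (φ3 k)]
        refine Finset.sum_congr rfl (fun i _ => ?_)
        rw [hσ]
      rw [h1]
      refine tendsto_finsetSum _ (fun i _ => ?_)
      exact (((continuous_of.comp hf).tendsto (a i)).comp (ha i)).const_smul _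
    have hz0 : Tendsto (fun k => z (φ (φ2 (φ3 k)))) atTop (𝓝 0) :=
      hz.comp ((hφ.comp (hφ2.comp hφ3)).tendsto_atTop)
    have hw0 := eq_zero_of_tendsto hz0 hzw
    have hev : ∀ᶠ k in atTop, ∀ i, f (σ (x (φ2 (φ3 k)) i)) = f (a i) ∨
        ∃ C ∈ t.image B, σ (x (φ2 (φ3 k)) i) ∈ C ∧ a i ∈ C := by
      rw [eventually_all]
      intro i
      by_cases hai : a i ∈ bd f
      · have h1 := hcover ⟨haL' i, hai⟩
        rw [mem_iUnion₂] at h1
        obtain ⟨p, hp, hap⟩ := h1
        filter_upwards [(ha i).eventually_mem ((hℬ.1 _ (hBℬ p (ht p hp))).mem_nhds hap)]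
          with k hk
        exact Or.inr ⟨B p, Finset.mem_image_of_mem B hp, hk, hap⟩
      · rw [notMem_bd_iff] at hai
        filter_upwards [(ha i).eventually hai] with k hk
        exact Or.inl hk
    obtain ⟨k, hk⟩ := hev.exists
    apply hφP (φ2 (φ3 k))
    refine Or.inr ⟨fun i => if ε0 i = 1 then σ (x (φ2 (φ3 k)) i) else a i,
      fun i => if ε0 i = -1 then σ (x (φ2 (φ3 k)) i) else a i, fun i => ?_, ?_⟩
    · rcases hk i with h | ⟨C, hC, h1, h2⟩
      · left
        dsimp only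
        split_ifs <;> simp [h]
      · right
        refine ⟨C, hC, ?_, ?_⟩
        · dsimp only
          split_ifs <;> assumption
        · dsimp only
          split_ifs <;> assumption
    · have h1 : z (φ (φ2 (φ3 k))) = ∑ i, (ε0 i : ℤ) •
          (FreeAbelianGroup.of (f (σ (x (φ2 (φ3 k)) i))) - FreeAbelianGroup.of (f (a i))) := by
        simp only [smul_sub, Finset.sum_sub_distrib]
        rw [hw0, sub_zero]
        rw [hzx (φ2 (φ3 k)), hε (φ3 k)]
        refine Finset.sum_congr rfl (fun i _ => ?_)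
        rw [hσ]
      rw [h1]
      refine Finset.sum_congr rfl (fun i _ => ?_)
      rcases SignType.trichotomy (ε0 i) with hεi | hεi | hεi
      · simp [hεi]
      · simp [hεi]
      · simp [hεi]

theorem countable_finset {α : Type v} {s : Set α} (hs : s.Countable) :
    {F : Finset α | (F : Set α) ⊆ s}.Countable := by
  have := (countable_ofPred_finite_subset hs)
  refine (this.preimage_of_injOn (f := fun F : Finset α => (F : Set α)) ?_).mono ?_
  · exact Finset.coe_injective.injOn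
  · intro F hF
    exact ⟨F.finite_toSet, hF⟩

theorem csfCountable_of_outerBase [NormalSpace X] [T1Space X] {f : M → X} (hf : Continuous f)
    (hc : IsClosedMap f) (hs : Surjective f) {ℬ : Set (Set M)} (hℬc : ℬ.Countable)
    (hℬ : OuterBase f ℬ) (n : ℕ) : CsfCountable (level X n) := by
  intro y
  refine ⟨(fun F : Finset (Set M) => {g : level X n | (g : FreeAbelianGroup X) - y ∈
    PP f (n + n) F}) '' {F : Finset (Set M) | (F : Set (Set M)) ⊆ ℬ},
    (countable_finset hℬc).image _, ?_, ?_⟩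
  · rintro P ⟨F, hF, rfl⟩
    left
    simp
  · intro s hsy U hU hyU
    obtain ⟨W, hW, rfl⟩ := isOpen_induced_iff.1 hU
    have hz : Tendsto (fun j => (s j : FreeAbelianGroup X) - y) atTop (𝓝 0) := by
      have h1 : Tendsto (fun j => (s j : FreeAbelianGroup X)) atTop (𝓝 y) :=
        (continuous_subtype_val.tendsto y).comp hsy
      have := h1.sub (tendsto_const_nhds (x := (y : FreeAbelianGroup X)))
      rwa [sub_self] at this
    have hWn : (fun g : FreeAbelianGroup X => g + y) ⁻¹' W ∈ 𝓝 (0 : FreeAbelianGroup X) := by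
      apply (continuous_add_const (y : FreeAbelianGroup X)).continuousAt.preimage_mem_nhds
      rw [zero_add]
      exact hW.mem_nhds hyU
    obtain ⟨F, hF, hPU, hev⟩ := exists_network hf hc hs hℬ (n + n) hz
      (fun j => (length_sub_le _ _).trans (add_le_add (s j).2 y.2)) hWn
    refine ⟨_, ⟨F, hF, rfl⟩, ?_, ?_⟩
    · intro g hg
      have := hPU hg
      simpa using this
    · exact hev

end Pool.Agent.H.MP_1e4d5b_gt
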